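import Pool.Agent.helper960_sd.Defs

/-!
# The combinatorial core
-/

namespace Pool.Agent.helper960_sd

/-- Vertices of the constructed graph. -/
inductive Vx : Type
  | a (t : ℕ) (b : Bool) : Vx
  | y (t : ℕ) : Vx
  | p (t : ℕ) (e b : Bool) : Vx
  | q (t : ℕ) (e b : Bool) : Vx

open Vx

/-- The position at the side `e` of the link `t`. -/
def pos (t : ℕ) (e : Bool) : ℕ := t + (if e then 1 else 0)

/-- Adjacency of the constructed graph. -/
def RAdj (C : ℕ → ℕ → Bool → Prop) : Vx → Vx → Prop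
  | a s _, a s' _ => s ≠ s'
  | a s b, y t => ¬ C t s b
  | y t, a s b => ¬ C t s b
  | a s b, p t e b' => s = pos t e ∧ b = b'
  | p t e b', a s b => s = pos t e ∧ b = b'
  | p t e b, q t' e' b' => t = t' ∧ e = e' ∧ b = b'
  | q t e b, p t' e' b' => t = t' ∧ e = e' ∧ b = b'
  | q t _ _, y t' => t = t'
  | y t', q t _ _ => t = t'
  | _, _ => False

/-- Which codes are vertices. -/
def Ok (M : ℕ) : Vx → Prop
  | a t _ => t ≤ M
  | y t => t < M
  | p t _ _ => t < M
  | q t _ _ => t < M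

variable {W : Type}

/-- `K` is a maximal clique of the subgraph induced on `S`. -/
def MaxIn (G : SimpleGraph W) (S K : Set W) : Prop :=
  K ⊆ S ∧ G.IsClique K ∧ ∀ v ∈ S, (∀ u ∈ K, u ≠ v → G.Adj u v) → v ∈ K

theorem cliqueColorable_induce_iff (G : SimpleGraph W) (S : Set W) :
    CliqueColorable 2 (G.induce S) ↔
      ∃ c : W → Bool, ∀ K, MaxIn G S K → K.Nontrivial → ∃ u ∈ K, ∃ v ∈ K, c u ≠ c v := by
  classical
  constructor
  · rintro ⟨c, hc⟩
    refine ⟨fun w => if h : w ∈ S then decide (c ⟨w, h⟩ = 1) else false, ?_⟩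
    rintro K ⟨hKS, hK, hmax⟩ hnt
    have hmaxl : Maximal (G.induce S).IsClique {x : S | x.1 ∈ K} := by
      refine ⟨?_, ?_⟩
      · intro x hx z hz hxz
        exact hK hx hz (fun h => hxz (Subtype.ext h))
      · intro T hT hle x hx
        refine hmax x.1 x.2 ?_
        intro u hu hux
        have huT : (⟨u, hKS hu⟩ : S) ∈ T := hle (show (⟨u, hKS hu⟩ : S).1 ∈ K from hu)
        exact hT huT hx (fun h => hux (congrArg Subtype.val h))
    have hnt2 : ({x : S | x.1 ∈ K}).Nontrivial := by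
      obtain ⟨u, hu, v, hv, huv⟩ := hnt
      exact ⟨⟨u, hKS hu⟩, hu, ⟨v, hKS hv⟩, hv, fun h => huv (congrArg Subtype.val h)⟩
    obtain ⟨u, hu, v, hv, huv⟩ := hc _ hmaxl hnt2
    refine ⟨u.1, hu, v.1, hv, ?_⟩
    simp only [u.2, v.2, dif_pos]
    intro h
    apply huv
    have h2 : (c u = 1) ↔ (c v = 1) := by
      have := decide_eq_decide.1 h
      simpa using this
    generalize c u = x at *
    generalize c v = z at *
    fin_cases x <;> fin_cases z <;> simp_all
  · rintro ⟨c, hc⟩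
    refine ⟨fun w => if c w.1 then 1 else 0, ?_⟩
    intro K hK hnt
    have h1 : MaxIn G S (Subtype.val '' K) := by
      refine ⟨?_, ?_, ?_⟩
      · rintro _ ⟨x, _, rfl⟩
        exact x.2
      · rintro _ ⟨x, hx, rfl⟩ _ ⟨z, hz, rfl⟩ hxz
        exact hK.1 hx hz (fun h => hxz (congrArg Subtype.val h))
      · intro v hv hadj
        refine ⟨⟨v, hv⟩, ?_, rfl⟩
        have hcl : (G.induce S).IsClique (insert (⟨v, hv⟩ : S) K) := by
          rw [SimpleGraph.isClique_insert]
          refine ⟨hK.1, ?_⟩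
          intro b hb hne
          exact (hadj b.1 ⟨b, hb, rfl⟩ (fun h => hne (Subtype.ext h.symm))).symm
        exact hK.2 hcl (Set.subset_insert _ _) (Set.mem_insert _ _)
    have h2 : (Subtype.val '' K).Nontrivial := by
      obtain ⟨u, hu, v, hv, huv⟩ := hnt
      exact ⟨u.1, ⟨u, hu, rfl⟩, v.1, ⟨v, hv, rfl⟩, fun h => huv (Subtype.ext h)⟩
    obtain ⟨_, ⟨u, hu, rfl⟩, _, ⟨v, hv, rfl⟩, huv⟩ := hc _ h1 h2
    refine ⟨u, hu, v, hv, ?_⟩
    intro h
    apply huv
    cases h3 : c u.1 <;> cases h4 : c v.1 <;> simp_all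

end Pool.Agent.helper960_sd
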