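import Pool.Agent.NPC.Classes

/-!
# Strongly divisible graphs: definitions
-/

namespace Pool.Agent.helper960_sd

/-- `H` has a `k`-clique-colouring: its vertices can be coloured with `k` colours so that no
inclusion-maximal clique with at least two vertices is monochromatic. -/
def CliqueColorable (k : ℕ) {V : Type} (H : SimpleGraph V) : Prop :=
  ∃ c : V → Fin k, ∀ K : Set V, Maximal H.IsClique K → K.Nontrivial →
    ∃ u ∈ K, ∃ v ∈ K, c u ≠ c v

/-- `G` is strongly `k`-divisible: every induced subgraph has a `k`-clique-colouring. -/
def StronglyDivisible (k : ℕ) {V : Type} (G : SimpleGraph V) : Prop :=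
  ∀ S : Set V, CliqueColorable k (G.induce S)

/-- The entry in row `i` and column `j` of a Boolean matrix given as the list of its rows. -/
def entry (A : List (List Bool)) (i j : ℕ) : Bool := (A.getD i []).getD j false

/-- `A` is the adjacency matrix of a finite simple graph: it is square, symmetric and has zero
diagonal. -/
def IsAdjMatrix (A : List (List Bool)) : Prop :=
  (∀ r ∈ A, r.length = A.length) ∧ (∀ i j, entry A i j = entry A j i) ∧ ∀ i, entry A i i = false

/-- The graph with adjacency matrix `A`. -/
def graphOf (A : List (List Bool)) : SimpleGraph (Fin A.length) :=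
  SimpleGraph.fromRel (fun i j => entry A i j = true)

/-- The decision problem: is the input the adjacency matrix of a strongly `2`-divisible graph? -/
def Strong2Div (A : List (List Bool)) : Prop :=
  IsAdjMatrix A ∧ StronglyDivisible 2 (graphOf A)

end Pool.Agent.helper960_sd
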