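import Pool.Agent.helper960_sd.Main

/-!
# Colourings of all induced subgraphs when the formula is unsatisfiable
-/

namespace Pool.Agent.helper960_sd

open Vx

variable {W : Type} {M : ℕ} {C : ℕ → ℕ → Bool → Prop} {G : SimpleGraph W} {lab : W → Vx}

/-- The `A`-vertex `(s, b)` is present in `S`. -/
def PA (lab : W → Vx) (S : Set W) (s : ℕ) (b : Bool) : Prop := ∃ w ∈ S, lab w = a s b

/-- Position `s` is present in `S`. -/
def PP (lab : W → Vx) (S : Set W) (s : ℕ) : Prop := ∃ b, PA lab S s b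

/-- The separator `t` is present in `S`. -/
def PY (lab : W → Vx) (S : Set W) (t : ℕ) : Prop := ∃ w ∈ S, lab w = y t

/-- The link `t` is intact in `S`. -/
def Lk (lab : W → Vx) (S : Set W) (t : ℕ) : Prop := PP lab S t ∧ PP lab S (t + 1) ∧ PY lab S t

theorem pos_false (t : ℕ) : pos t false = t := rfl

theorem pos_true (t : ℕ) : pos t true = t + 1 := rfl

/-- A maximal clique without `p`- and `q`-vertices meets every present position whose vertex is
adjacent to the separators of the clique. -/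
theorem meets (hG : IsModel M C G lab) {S K : Set W} (hK : MaxIn G S K)
    (hpq : ∀ u ∈ K, (∃ s b, lab u = a s b) ∨ ∃ t, lab u = y t)
    {s : ℕ} {b : Bool} {w : W} (hw : w ∈ S) (hwl : lab w = a s b)
    (hy : ∀ u ∈ K, ∀ t, lab u = y t → ¬ C t s b) : ∃ u ∈ K, ∃ b', lab u = a s b' := by
  by_contra hcon
  push Not at hcon
  have hmem : w ∈ K := by
    refine hK.2.2 w hw ?_
    intro u hu _
    rw [hG.adj, hwl]
    rcases hpq u hu with ⟨s', b', hu'⟩ | ⟨t, hu'⟩
    · rw [hu']
      intro h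
      subst h
      exact hcon u hu b' hu'
    · rw [hu']
      exact hy u hu t hu'
  exact hcon w hmem b hwl

/-- Neighbours of a `p`-vertex. -/
theorem nbr_p (hG : IsModel M C G lab) {u v : W} {t : ℕ} {e b : Bool} (hu : lab u = p t e b)
    (h : G.Adj u v) : lab v = a (pos t e) b ∨ lab v = q t e b := by
  rw [hG.adj, hu] at h
  cases hl : lab v with
  | a s b' =>
    rw [hl] at h
    left
    rw [h.1, h.2]
  | y s => rw [hl] at h; exact h.elim
  | p s e' b' => rw [hl] at h; exact h.elim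
  | q s e' b' =>
    rw [hl] at h
    right
    rw [h.1, h.2.1, h.2.2]

/-- Neighbours of a `q`-vertex. -/
theorem nbr_q (hG : IsModel M C G lab) {u v : W} {t : ℕ} {e b : Bool} (hu : lab u = q t e b)
    (h : G.Adj u v) : lab v = p t e b ∨ lab v = y t := by
  rw [hG.adj, hu] at h
  cases hl : lab v with
  | a s b' => rw [hl] at h; exact h.elim
  | y s =>
    rw [hl] at h
    right
    have h2 : t = s := h
    rw [h2]
  | p s e' b' =>
    rw [hl] at h
    left
    rw [h.1, h.2.1, h.2.2]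
  | q s e' b' => rw [hl] at h; exact h.elim

/-- Neighbours of a separator. -/
theorem nbr_y (hG : IsModel M C G lab) {u v : W} {t : ℕ} (hu : lab u = y t)
    (h : G.Adj u v) : (∃ s b, lab v = a s b ∧ ¬ C t s b) ∨ ∃ e b, lab v = q t e b := by
  rw [hG.adj, hu] at h
  cases hl : lab v with
  | a s b' =>
    rw [hl] at h
    left
    exact ⟨s, b', rfl, h⟩
  | y s => rw [hl] at h; exact h.elim
  | p s e' b' => rw [hl] at h; exact h.elim
  | q s e' b' =>
    rw [hl] at h
    right
    have h2 : s = t := h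
    rw [h2]
    exact ⟨e', b', rfl⟩

/-- Another element of a nontrivial clique, adjacent to the given one. -/
theorem other {S K : Set W} (hK : MaxIn G S K) (hnt : K.Nontrivial) {u : W} (hu : u ∈ K) :
    ∃ v ∈ K, G.Adj u v := by
  obtain ⟨v, hv, hne⟩ := hnt.exists_ne u
  exact ⟨v, hv, hK.2.1 hu hv hne.symm⟩

section caseA

open Classical in
/-- The side of a position with respect to the cut `b`. -/
noncomputable def side (b s : ℕ) : Bool := decide (b < s)

open Classical in
/-- The colour of the separator `t`. -/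
noncomputable def yc (C : ℕ → ℕ → Bool → Prop) (lab : W → Vx) (S : Set W) (b t : ℕ) : Bool :=
  if PP lab S t then !(side b t)
  else if PP lab S (t + 1) then !(side b (t + 1))
  else !decide (∃ s β, b < s ∧ PA lab S s β ∧ ¬ C t s β)

open Classical in
/-- The colouring in the first case. -/
noncomputable def colA (C : ℕ → ℕ → Bool → Prop) (lab : W → Vx) (S : Set W) (b : ℕ) (w : W) :
    Bool :=
  match lab w with
  | a s _ => side b s
  | y t => yc C lab S b t
  | p t e β => if PA lab S (pos t e) β then !(side b (pos t e)) else yc C lab S b t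
  | q t e β => if PA lab S (pos t e) β then side b (pos t e) else !(yc C lab S b t)

theorem side_succ {b t : ℕ} (h : t ≠ b) : side b (t + 1) = side b t := by
  unfold side
  congr 1
  apply propext
  omega

theorem yc_of_pos {S : Set W} {b t : ℕ} (hb : ¬ Lk lab S b) (hy : PY lab S t) (e : Bool)
    (h : PP lab S (pos t e)) : yc C lab S b t = !(side b (pos t e)) := by
  unfold yc
  cases e with
  | false =>
    rw [pos_false] at *
    rw [if_pos h]
  | true =>
    rw [pos_true] at *
    by_cases h0 : PP lab S t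
    · rw [if_pos h0]
      have hne : t ≠ b := by
        rintro rfl
        exact hb ⟨h0, h, hy⟩
      rw [side_succ hne]
    · rw [if_neg h0, if_pos h]

theorem case_A (hG : IsModel M C G lab)
    (hC1 : ∀ t s b, t < M → C t s b → s ≠ t ∧ s ≠ t + 1)
    {S : Set W} {b s₀ s₁ : ℕ} (hs0 : PP lab S s₀) (hs1 : PP lab S s₁) (h0 : s₀ ≤ b) (h1 : b < s₁)
    (hb : ¬ Lk lab S b) {K : Set W} (hK : MaxIn G S K) (hnt : K.Nontrivial) :
    ∃ u ∈ K, ∃ v ∈ K, colA C lab S b u ≠ colA C lab S b v := by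
  classical
  -- colours
  have ca : ∀ u s β, lab u = a s β → colA C lab S b u = side b s := by
    intro u s β hu; unfold colA; rw [hu]
  have cy : ∀ u t, lab u = y t → colA C lab S b u = yc C lab S b t := by
    intro u t hu; unfold colA; rw [hu]
  have cp : ∀ u t e β, lab u = p t e β → colA C lab S b u =
      if PA lab S (pos t e) β then !(side b (pos t e)) else yc C lab S b t := by
    intro u t e β hu; unfold colA; rw [hu]
  have cq : ∀ u t e β, lab u = q t e β → colA C lab S b u =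
      if PA lab S (pos t e) β then side b (pos t e) else !(yc C lab S b t) := by
    intro u t e β hu; unfold colA; rw [hu]
  by_cases hp : ∃ u ∈ K, ∃ t e β, lab u = p t e β
  · obtain ⟨u, hu, t, e, β, hl⟩ := hp
    obtain ⟨v, hv, hadj⟩ := other hK hnt hu
    refine ⟨u, hu, v, hv, ?_⟩
    rcases nbr_p hG hl hadj with hv' | hv'
    · have hPA : PA lab S (pos t e) β := ⟨v, hK.1 hv, hv'⟩
      rw [cp u t e β hl, ca v _ _ hv', if_pos hPA]
      cases side b (pos t e) <;> simp
    · rw [cp u t e β hl, cq v _ _ _ hv']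
      by_cases hPA : PA lab S (pos t e) β
      · rw [if_pos hPA, if_pos hPA]; cases side b (pos t e) <;> simp
      · rw [if_neg hPA, if_neg hPA]; cases yc C lab S b t <;> simp
  by_cases hq : ∃ u ∈ K, ∃ t e β, lab u = q t e β
  · obtain ⟨u, hu, t, e, β, hl⟩ := hq
    obtain ⟨v, hv, hadj⟩ := other hK hnt hu
    refine ⟨u, hu, v, hv, ?_⟩
    rcases nbr_q hG hl hadj with hv' | hv'
    · exact absurd ⟨v, hv, t, e, β, hv'⟩ hp
    · rw [cq u t e β hl, cy v _ hv']
      by_cases hPA : PA lab S (pos t e) β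
      · rw [if_pos hPA, yc_of_pos hb ⟨v, hK.1 hv, hv'⟩ e ⟨β, hPA⟩]
        cases side b (pos t e) <;> simp
      · rw [if_neg hPA]; cases yc C lab S b t <;> simp
  have hay : ∀ u ∈ K, (∃ s b, lab u = a s b) ∨ ∃ t, lab u = y t := by
    intro u hu
    cases hl : lab u with
    | a s b => exact Or.inl ⟨s, b, rfl⟩
    | y t => exact Or.inr ⟨t, rfl⟩
    | p t e β => exact absurd ⟨u, hu, t, e, β, hl⟩ hp
    | q t e β => exact absurd ⟨u, hu, t, e, β, hl⟩ hq
  by_cases hY : ∃ u ∈ K, ∃ t, lab u = y t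
  · obtain ⟨u, hu, t, hl⟩ := hY
    have hPY : PY lab S t := ⟨u, hK.1 hu, hl⟩
    have ht : t < M := by
      have := hG.ok u
      rw [hl] at this
      exact this
    -- the only separator of the clique is `y t`
    have huniq : ∀ v ∈ K, ∀ t', lab v = y t' → t' = t := by
      intro v hv t' hv'
      by_contra hne
      have huv : u ≠ v := by
        rintro rfl
        rw [hl] at hv'
        injection hv' with h
        exact hne h.symm
      have h2 := hK.2.1 hu hv huv
      rw [hG.adj, hl, hv'] at h2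
      exact h2
    have hmeet : ∀ s β, PA lab S s β → ¬ C t s β → ∃ v ∈ K, ∃ β', lab v = a s β' := by
      rintro s β ⟨w, hw, hwl⟩ hC
      refine meets hG hK hay hw hwl ?_
      intro v hv t' hv'
      rw [huniq v hv t' hv']
      exact hC
    by_cases hP : ∃ e, PP lab S (pos t e)
    · obtain ⟨e, β, hPA⟩ := hP
      have hnC : ¬ C t (pos t e) β := by
        intro hC
        have h2 := hC1 t _ _ ht hC
        cases e with
        | false => exact h2.1 (pos_false t)
        | true => exact h2.2 (pos_true t)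
      obtain ⟨v, hv, β', hv'⟩ := hmeet _ β hPA hnC
      refine ⟨u, hu, v, hv, ?_⟩
      rw [cy u t hl, ca v _ _ hv', yc_of_pos hb hPY e ⟨β, hPA⟩]
      cases side b (pos t e) <;> simp
    · have hn0 : ¬ PP lab S t := fun h => hP ⟨false, h⟩
      have hn1 : ¬ PP lab S (t + 1) := fun h => hP ⟨true, h⟩
      by_cases hR : ∃ s β, b < s ∧ PA lab S s β ∧ ¬ C t s β
      · have hyc : yc C lab S b t = false := by
          unfold yc
          rw [if_neg hn0, if_neg hn1]
          simp only [hR, decide_true, Bool.not_true]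
        obtain ⟨s, β, hs, hPA, hnC⟩ := hR
        obtain ⟨v, hv, β', hv'⟩ := hmeet s β hPA hnC
        refine ⟨u, hu, v, hv, ?_⟩
        rw [cy u t hl, ca v _ _ hv', hyc]
        simp [side, hs]
      · have hyc : yc C lab S b t = true := by
          unfold yc
          rw [if_neg hn0, if_neg hn1]
          simp only [hR, decide_false, Bool.not_false]
        obtain ⟨v, hv, hadj⟩ := other hK hnt hu
        rcases nbr_y hG hl hadj with ⟨s, β, hv', hnC⟩ | ⟨e, β, hv'⟩
        · refine ⟨u, hu, v, hv, ?_⟩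
          rw [cy u t hl, ca v _ _ hv', hyc]
          have hs : ¬ b < s := fun h => hR ⟨s, β, h, ⟨v, hK.1 hv, hv'⟩, hnC⟩
          simp [side, hs]
        · exact absurd ⟨v, hv, t, e, β, hv'⟩ hq
  · have hnoY : ∀ v ∈ K, ∀ t, lab v = y t → False := fun v hv t hl => hY ⟨v, hv, t, hl⟩
    obtain ⟨β0, w0, hw0, hl0⟩ := hs0
    obtain ⟨β1, w1, hw1, hl1⟩ := hs1
    obtain ⟨u, hu, βu, hul⟩ := meets hG hK hay hw0 hl0 (fun v hv t h => (hnoY v hv t h).elim)
    obtain ⟨v, hv, βv, hvl⟩ := meets hG hK hay hw1 hl1 (fun v hv t h => (hnoY v hv t h).elim)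
    refine ⟨u, hu, v, hv, ?_⟩
    rw [ca u _ _ hul, ca v _ _ hvl]
    have e0 : side b s₀ = false := by simp [side]; omega
    have e1 : side b s₁ = true := by simp [side]; omega
    rw [e0, e1]
    simp

end caseA

/-- The colouring in the second case. -/
def colB (lab : W → Vx) (w : W) : Bool :=
  match lab w with
  | a _ _ => false
  | y _ => true
  | p _ _ _ => true
  | q _ _ _ => false

theorem case_B (hG : IsModel M C G lab)
    (hC2 : ∀ lo hi, lo < hi → hi ≤ M → ¬ (lo = 0 ∧ hi = M) →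
      ∃ t, lo ≤ t ∧ t < hi ∧ ∀ s b, C t s b → s < lo ∨ hi < s)
    (hno : ¬ ∃ f : ℕ → Bool, ∀ t < M, ∃ s ≤ M, C t s (f s))
    {S : Set W}
    (hlk : ∀ b s₀ s₁, PP lab S s₀ → PP lab S s₁ → s₀ ≤ b → b < s₁ → Lk lab S b)
    {K : Set W} (hK : MaxIn G S K) (hnt : K.Nontrivial) :
    ∃ u ∈ K, ∃ v ∈ K, colB lab u ≠ colB lab v := by
  classical
  have ca : ∀ u s β, lab u = a s β → colB lab u = false := by
    intro u s β hu; unfold colB; rw [hu]
  have cy : ∀ u t, lab u = y t → colB lab u = true := by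
    intro u t hu; unfold colB; rw [hu]
  have cp : ∀ u t e β, lab u = p t e β → colB lab u = true := by
    intro u t e β hu; unfold colB; rw [hu]
  have cq : ∀ u t e β, lab u = q t e β → colB lab u = false := by
    intro u t e β hu; unfold colB; rw [hu]
  by_cases hp : ∃ u ∈ K, ∃ t e β, lab u = p t e β
  · obtain ⟨u, hu, t, e, β, hl⟩ := hp
    obtain ⟨v, hv, hadj⟩ := other hK hnt hu
    refine ⟨u, hu, v, hv, ?_⟩
    rcases nbr_p hG hl hadj with hv' | hv'
    · rw [cp u t e β hl, ca v _ _ hv']; simp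
    · rw [cp u t e β hl, cq v _ _ _ hv']; simp
  by_cases hq : ∃ u ∈ K, ∃ t e β, lab u = q t e β
  · obtain ⟨u, hu, t, e, β, hl⟩ := hq
    obtain ⟨v, hv, hadj⟩ := other hK hnt hu
    refine ⟨u, hu, v, hv, ?_⟩
    rcases nbr_q hG hl hadj with hv' | hv'
    · rw [cq u t e β hl, cp v _ _ _ hv']; simp
    · rw [cq u t e β hl, cy v _ hv']; simp
  have hay : ∀ u ∈ K, (∃ s b, lab u = a s b) ∨ ∃ t, lab u = y t := by
    intro u hu
    cases hl : lab u with
    | a s b => exact Or.inl ⟨s, b, rfl⟩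
    | y t => exact Or.inr ⟨t, rfl⟩
    | p t e β => exact absurd ⟨u, hu, t, e, β, hl⟩ hp
    | q t e β => exact absurd ⟨u, hu, t, e, β, hl⟩ hq
  by_cases hY : ∃ u ∈ K, ∃ t, lab u = y t
  · obtain ⟨u, hu, t, hl⟩ := hY
    obtain ⟨v, hv, hadj⟩ := other hK hnt hu
    refine ⟨u, hu, v, hv, ?_⟩
    rcases nbr_y hG hl hadj with ⟨s, β, hv', hnC⟩ | ⟨e, β, hv'⟩
    · rw [cy u t hl, ca v _ _ hv']; simp
    · rw [cy u t hl, cq v _ _ _ hv']; simp
  exfalso
  have hnoY : ∀ v ∈ K, ∀ t, lab v = y t → False := fun v hv t hl => hY ⟨v, hv, t, hl⟩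
  have hA : ∀ u ∈ K, ∃ s b, lab u = a s b := by
    intro u hu
    rcases hay u hu with h | ⟨t, h⟩
    · exact h
    · exact (hnoY u hu t h).elim
  have hmeet : ∀ s, PP lab S s → ∃ u ∈ K, ∃ b, lab u = a s b := by
    rintro s ⟨b, w, hw, hwl⟩
    exact meets hG hK hay hw hwl (fun v hv t h => (hnoY v hv t h).elim)
  have hPle : ∀ s, PP lab S s → s ≤ M := by
    rintro s ⟨b, w, hw, hwl⟩
    have := hG.ok w
    rw [hwl] at this
    exact this
  have hKP : ∀ u ∈ K, ∀ s b, lab u = a s b → PP lab S s :=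
    fun u hu s b h => ⟨b, u, hK.1 hu, h⟩
  -- unique element of `K` at each position
  have huniq : ∀ u ∈ K, ∀ v ∈ K, ∀ s b b', lab u = a s b → lab v = a s b' → b = b' := by
    intro u hu v hv s b b' hul hvl
    by_contra hne
    have huv : u ≠ v := by
      rintro rfl
      rw [hul] at hvl
      injection hvl with _ h
      exact hne h
    have h2 := hK.2.1 hu hv huv
    rw [hG.adj, hul, hvl] at h2
    exact h2 rfl
  obtain ⟨u, hu, v, hv, huv⟩ := hnt
  obtain ⟨su, bu, hul⟩ := hA u hu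
  obtain ⟨sv, bv, hvl⟩ := hA v hv
  have hne : su ≠ sv := by
    have h2 := hK.2.1 hu hv huv
    rw [hG.adj, hul, hvl] at h2
    exact h2
  have hex : ∃ s, PP lab S s := ⟨su, hKP u hu su bu hul⟩
  set lo := Nat.find hex with hlo
  have hloP : PP lab S lo := Nat.find_spec hex
  have hlomin : ∀ s, PP lab S s → lo ≤ s := fun s hs => Nat.find_min' hex hs
  set hi := Nat.findGreatest (fun s => PP lab S s) M with hhi
  have hhiP : PP lab S hi :=
    Nat.findGreatest_spec (P := fun s => PP lab S s) (hPle su (hKP u hu su bu hul))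
      (hKP u hu su bu hul)
  have hhimax : ∀ s, PP lab S s → s ≤ hi := fun s hs =>
    Nat.le_findGreatest (hPle s hs) hs
  have hlt : lo < hi := by
    have h1 := hlomin su (hKP u hu su bu hul)
    have h2 := hlomin sv (hKP v hv sv bv hvl)
    have h3 := hhimax su (hKP u hu su bu hul)
    have h4 := hhimax sv (hKP v hv sv bv hvl)
    omega
  have hhiM : hi ≤ M := Nat.findGreatest_le M
  -- every intact separator is missed by some element of the clique
  have hhit : ∀ t, lo ≤ t → t < hi → ∃ u ∈ K, ∃ s b, lab u = a s b ∧ C t s b := by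
    intro t h1 h2
    obtain ⟨_, _, w, hw, hwl⟩ := hlk t lo hi hloP hhiP h1 h2
    by_contra hcon
    push Not at hcon
    have hmem : w ∈ K := by
      refine hK.2.2 w hw ?_
      intro x hx _
      obtain ⟨s, b, hxl⟩ := hA x hx
      rw [hG.adj, hxl, hwl]
      exact hcon x hx s b hxl
    exact hnoY w hmem t hwl
  by_cases hfull : lo = 0 ∧ hi = M
  · apply hno
    have hall : ∀ s ≤ M, PP lab S s := by
      intro s hs
      rcases Nat.lt_or_ge s M with h | h
      · exact (hlk s lo hi hloP hhiP (by omega) (by omega)).1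
      · have : s = hi := by omega
        rw [this]; exact hhiP
    have hsel : ∀ s, ∃ b, s ≤ M → ∃ u ∈ K, lab u = a s b := by
      intro s
      by_cases hs : s ≤ M
      · obtain ⟨u, hu, b, hb⟩ := hmeet s (hall s hs)
        exact ⟨b, fun _ => ⟨u, hu, hb⟩⟩
      · exact ⟨false, fun h => absurd h hs⟩
    choose f hf using hsel
    refine ⟨f, fun t ht => ?_⟩
    obtain ⟨x, hx, s, b, hxl, hC⟩ := hhit t (by omega) (by omega)
    have hsM : s ≤ M := hPle s (hKP x hx s b hxl)
    obtain ⟨z, hz, hzl⟩ := hf s hsM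
    have : b = f s := huniq x hx z hz s b (f s) hxl hzl
    exact ⟨s, hsM, this ▸ hC⟩
  · obtain ⟨t, h1, h2, h3⟩ := hC2 lo hi hlt hhiM hfull
    obtain ⟨x, hx, s, b, hxl, hC⟩ := hhit t h1 h2
    have hP := hKP x hx s b hxl
    have h4 := hlomin s hP
    have h5 := hhimax s hP
    rcases h3 s b hC with h | h <;> omega

/-- If the formula is unsatisfiable, all induced subgraphs have a colouring. -/
theorem colorable_of_unsat (hG : IsModel M C G lab)
    (hC1 : ∀ t s b, t < M → C t s b → s ≠ t ∧ s ≠ t + 1)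
    (hC2 : ∀ lo hi, lo < hi → hi ≤ M → ¬ (lo = 0 ∧ hi = M) →
      ∃ t, lo ≤ t ∧ t < hi ∧ ∀ s b, C t s b → s < lo ∨ hi < s)
    (hno : ¬ ∃ f : ℕ → Bool, ∀ t < M, ∃ s ≤ M, C t s (f s)) (S : Set W) :
    ∃ c : W → Bool, ∀ K, MaxIn G S K → K.Nontrivial → ∃ u ∈ K, ∃ v ∈ K, c u ≠ c v := by
  by_cases h : ∃ b s₀ s₁, PP lab S s₀ ∧ PP lab S s₁ ∧ s₀ ≤ b ∧ b < s₁ ∧ ¬ Lk lab S b
  · obtain ⟨b, s₀, s₁, h0, h1, h2, h3, h4⟩ := h
    exact ⟨colA C lab S b, fun K hK hnt => case_A hG hC1 h0 h1 h2 h3 h4 hK hnt⟩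
  · push Not at h
    exact ⟨colB lab, fun K hK hnt => case_B hG hC2 hno
      (fun b s₀ s₁ h0 h1 h2 h3 => h b s₀ s₁ h0 h1 h2 h3) hK hnt⟩

/-- The constructed graph is strongly `2`-divisible exactly when the formula is unsatisfiable. -/
theorem strongly_iff (hG : IsModel M C G lab) (hM : 1 ≤ M)
    (hC1 : ∀ t s b, t < M → C t s b → s ≠ t ∧ s ≠ t + 1)
    (hC2 : ∀ lo hi, lo < hi → hi ≤ M → ¬ (lo = 0 ∧ hi = M) →
      ∃ t, lo ≤ t ∧ t < hi ∧ ∀ s b, C t s b → s < lo ∨ hi < s) :
    StronglyDivisible 2 G ↔ ¬ ∃ f : ℕ → Bool, ∀ t < M, ∃ s ≤ M, C t s (f s) := by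
  constructor
  · rintro h ⟨f, hf⟩
    obtain ⟨S, hS⟩ := not_colorable_of_sat hG hM f hf
    exact hS ((cliqueColorable_induce_iff G S).1 (h S))
  · intro h S
    exact (cliqueColorable_induce_iff G S).2 (colorable_of_unsat hG hC1 hC2 h S)

end Pool.Agent.helper960_sd
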