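import Pool.Agent.NPC.Sat2
import Pool.Agent.NPC.Dec
import Pool.Agent.helper960_sd.No

/-!
# The links of the reduction from 3SAT
-/

namespace Pool.Agent.helper960_sd

open Pool.Agent.NPC Vx

/-- Clauses. -/
abbrev Cl : Type := Lit ℕ × Lit ℕ × Lit ℕ

/-- The choice that is available only at the last position. -/
def guardC (M : ℕ) : List (ℕ × Bool) := [(M, false), (M, true)]

/-- The position and bit belonging to a literal. -/
def litC (off : ℕ) (l : Lit ℕ) : ℕ × Bool := (off + l.2, l.1)

/-- The choices for a clause. -/
def clauseC (off : ℕ) (c : Cl) : List (ℕ × Bool) := [litC off c.1, litC off c.2.1, litC off c.2.2]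

/-- The number of links. -/
def big (φ : List Cl) : ℕ := 5 * φ.length + 2

/-- The list of links. -/
def links (φ : List Cl) : List (List (ℕ × Bool)) :=
  φ.flatMap (fun c => [guardC (big φ), clauseC (2 * φ.length + 2) c]) ++
  ((φ ++ (φ ++ φ)).map (fun _ => guardC (big φ)) ++
  [guardC (big φ), [(0, false), (0, true)]])

/-- The choice relation of a list of links. -/
def relC (L : List (List (ℕ × Bool))) (t s : ℕ) (b : Bool) : Prop := (s, b) ∈ L.getD t []

theorem flat2_length (G : List (ℕ × Bool)) (F : Cl → List (ℕ × Bool)) (φ : List Cl) :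
    (φ.flatMap (fun c => [G, F c])).length = 2 * φ.length := by
  induction φ with
  | nil => rfl
  | cons c φ ih =>
    rw [List.flatMap_cons, List.length_append, ih]
    simp
    omega

theorem links_length (φ : List Cl) : (links φ).length = big φ := by
  unfold links big
  rw [List.length_append, flat2_length]
  simp
  omega

theorem flat2_even (G : List (ℕ × Bool)) (F : Cl → List (ℕ × Bool)) : ∀ (φ : List Cl) (j : ℕ),
    j < φ.length → (φ.flatMap (fun c => [G, F c]))[2 * j]? = some G
  | [], j, h => by simp at h
  | c :: φ, 0, _ => by simp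
  | c :: φ, j + 1, h => by
    rw [List.flatMap_cons, List.getElem?_append_right (by simp <;> omega)]
    have : 2 * (j + 1) - [G, F c].length = 2 * j := by simp; omega
    rw [this]
    exact flat2_even G F φ j (by simpa using h)

theorem flat2_odd (G : List (ℕ × Bool)) (F : Cl → List (ℕ × Bool)) : ∀ (φ : List Cl) (j : ℕ)
    (c : Cl), φ[j]? = some c → (φ.flatMap (fun c => [G, F c]))[2 * j + 1]? = some (F c)
  | [], j, c, h => by simp at h
  | c :: φ, 0, d, h => by
    simp at h
    simp [h]
  | c :: φ, j + 1, d, h => by
    rw [List.flatMap_cons, List.getElem?_append_right (by simp; omega)]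
    have : 2 * (j + 1) + 1 - [G, F c].length = 2 * j + 1 := by simp; omega
    rw [this]
    exact flat2_odd G F φ j d (by simpa using h)

theorem links_even (φ : List Cl) {j : ℕ} (h : j < φ.length) :
    (links φ).getD (2 * j) [] = guardC (big φ) := by
  unfold links
  rw [List.getD_eq_getElem?_getD, List.getElem?_append_left (by rw [flat2_length]; omega),
    flat2_even _ _ _ _ h]
  rfl

theorem links_odd (φ : List Cl) {j : ℕ} {c : Cl} (h : φ[j]? = some c) :
    (links φ).getD (2 * j + 1) [] = clauseC (2 * φ.length + 2) c := by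
  have hj : j < φ.length := (List.getElem?_eq_some_iff.1 h).1
  unfold links
  rw [List.getD_eq_getElem?_getD, List.getElem?_append_left (by rw [flat2_length]; omega),
    flat2_odd _ _ _ _ _ h]
  rfl

theorem links_mid (φ : List Cl) {t : ℕ} (h : 2 * φ.length ≤ t) (h' : t < 5 * φ.length + 1) :
    (links φ).getD t [] = guardC (big φ) := by
  unfold links
  rw [List.getD_eq_getElem?_getD, List.getElem?_append_right (by rw [flat2_length]; omega),
    flat2_length]
  by_cases h2 : t < 5 * φ.length
  · rw [List.getElem?_append_left (by simp; omega), List.getElem?_map,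
      List.getElem?_eq_getElem (by simp; omega)]
    rfl
  · rw [List.getElem?_append_right (by simp; omega)]
    have : t - 2 * φ.length - ((φ ++ (φ ++ φ)).map (fun _ => guardC (big φ))).length = 0 := by
      simp; omega
    rw [this]
    rfl

theorem links_last (φ : List Cl) :
    (links φ).getD (5 * φ.length + 1) [] = [(0, false), (0, true)] := by
  unfold links
  rw [List.getD_eq_getElem?_getD, List.getElem?_append_right (by rw [flat2_length]; omega),
    flat2_length, List.getElem?_append_right (by simp; omega)]
  have : 5 * φ.length + 1 - 2 * φ.length -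
      ((φ ++ (φ ++ φ)).map (fun _ => guardC (big φ))).length = 1 := by
    simp; omega
  rw [this]
  rfl

/-- All links of a list, by position. -/
theorem relC_cases (φ : List Cl) {t s : ℕ} {b : Bool} (ht : t < big φ)
    (h : relC (links φ) t s b) :
    (s = big φ ∧ t + 1 < big φ) ∨ (t = 5 * φ.length + 1 ∧ s = 0) ∨
      (t % 2 = 1 ∧ t < 2 * φ.length ∧ 2 * φ.length + 2 ≤ s) := by
  unfold relC at h
  unfold big at ht ⊢
  by_cases h1 : t < 2 * φ.length
  · obtain ⟨j, hj | hj⟩ : ∃ j, t = 2 * j ∨ t = 2 * j + 1 := ⟨t / 2, by omega⟩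
    · rw [hj, links_even φ (by omega)] at h
      left
      simp only [guardC, List.mem_cons, Prod.mk.injEq, List.not_mem_nil, or_false] at h
      unfold big at h
      omega
    · have hj' : j < φ.length := by omega
      rw [hj, links_odd φ (List.getElem?_eq_getElem hj')] at h
      right; right
      simp only [clauseC, litC, List.mem_cons, Prod.mk.injEq, List.not_mem_nil, or_false] at h
      omega
  · by_cases h2 : t < 5 * φ.length + 1
    · rw [links_mid φ (by omega) h2] at h
      left
      simp only [guardC, List.mem_cons, Prod.mk.injEq, List.not_mem_nil, or_false] at h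
      unfold big at h
      omega
    · have h3 : t = 5 * φ.length + 1 := by omega
      rw [h3, links_last φ] at h
      simp only [List.mem_cons, Prod.mk.injEq, List.not_mem_nil, or_false] at h
      omega

theorem relC_h1 (φ : List Cl) : ∀ t s b, t < big φ → relC (links φ) t s b → s ≠ t ∧ s ≠ t + 1 := by
  intro t s b ht h
  have := relC_cases φ ht h
  unfold big at *
  omega

theorem relC_h2 (φ : List Cl) : ∀ lo hi, lo < hi → hi ≤ big φ → ¬ (lo = 0 ∧ hi = big φ) →
    ∃ t, lo ≤ t ∧ t < hi ∧ ∀ s b, relC (links φ) t s b → s < lo ∨ hi < s := by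
  intro lo hi h1 h2 h3
  by_cases h4 : hi = big φ
  · refine ⟨5 * φ.length + 1, by unfold big at *; omega, by unfold big at *; omega, ?_⟩
    intro s b h
    have := relC_cases φ (by unfold big; omega) h
    unfold big at *
    omega
  · by_cases h5 : lo % 2 = 1 ∧ lo < 2 * φ.length ∧ lo + 2 ≤ hi
    · refine ⟨lo + 1, by omega, by omega, ?_⟩
      intro s b h
      have := relC_cases φ (by unfold big at *; omega) h
      unfold big at *
      omega
    · refine ⟨lo, le_rfl, h1, ?_⟩
      intro s b h
      have := relC_cases φ (by unfold big at *; omega) h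
      unfold big at *
      omega

theorem relC_sat (φ : List Cl) (hφ : Bounded3 φ) :
    SAT3 φ ↔ ∃ f : ℕ → Bool, ∀ t < big φ, ∃ s ≤ big φ, relC (links φ) t s (f s) := by
  constructor
  · rintro ⟨τ, hτ⟩
    refine ⟨fun s => τ (s - (2 * φ.length + 2)), ?_⟩
    intro t ht
    unfold relC
    by_cases h1 : t < 2 * φ.length
    · obtain ⟨j, hj | hj⟩ : ∃ j, t = 2 * j ∨ t = 2 * j + 1 := ⟨t / 2, by omega⟩
      · refine ⟨big φ, le_rfl, ?_⟩
        rw [hj, links_even φ (by omega)]
        cases τ (big φ - (2 * φ.length + 2)) <;> simp [guardC]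
      · have hj' : j < φ.length := by omega
        have hmem : φ[j] ∈ φ := List.getElem_mem hj'
        have hb := hφ _ hmem
        rw [hj, links_odd φ (List.getElem?_eq_getElem hj')]
        rcases hτ _ hmem with h | h | h
        · refine ⟨2 * φ.length + 2 + φ[j].1.2, by unfold big; omega, ?_⟩
          simp [clauseC, litC, h]
        · refine ⟨2 * φ.length + 2 + φ[j].2.1.2, by unfold big; omega, ?_⟩
          simp [clauseC, litC, h]
        · refine ⟨2 * φ.length + 2 + φ[j].2.2.2, by unfold big; omega, ?_⟩
          simp [clauseC, litC, h]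
    · by_cases h2 : t < 5 * φ.length + 1
      · refine ⟨big φ, le_rfl, ?_⟩
        rw [links_mid φ (by omega) h2]
        cases τ (big φ - (2 * φ.length + 2)) <;> simp [guardC]
      · refine ⟨0, by omega, ?_⟩
        have h3 : t = 5 * φ.length + 1 := by unfold big at ht; omega
        rw [h3, links_last φ]
        cases τ (0 - (2 * φ.length + 2)) <;> simp
  · rintro ⟨f, hf⟩
    refine ⟨fun i => f (2 * φ.length + 2 + i), ?_⟩
    intro c hc
    obtain ⟨j, hj⟩ := List.mem_iff_getElem?.1 hc
    have hj' : j < φ.length := (List.getElem?_eq_some_iff.1 hj).1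
    obtain ⟨s, -, hs⟩ := hf (2 * j + 1) (by unfold big; omega)
    unfold relC at hs
    rw [links_odd φ hj] at hs
    simp only [clauseC, litC, List.mem_cons, Prod.mk.injEq, List.not_mem_nil, or_false] at hs
    rcases hs with ⟨h, h'⟩ | ⟨h, h'⟩ | ⟨h, h'⟩
    · left
      show f (2 * φ.length + 2 + c.1.2) = c.1.1
      rw [← h, h']
    · right; left
      show f (2 * φ.length + 2 + c.2.1.2) = c.2.1.1
      rw [← h, h']
    · right; right
      show f (2 * φ.length + 2 + c.2.2.2) = c.2.2.1
      rw [← h, h']

end Pool.Agent.helper960_sd
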