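import Pool.Agent.helper960_sd.Comb

/-!
# The two directions of the reduction
-/

namespace Pool.Agent.helper960_sd

open Vx

variable {W : Type}

/-- The graph `G` on `W` is (a copy of) the constructed graph, through the labelling `lab`. -/
structure IsModel (M : ℕ) (C : ℕ → ℕ → Bool → Prop) (G : SimpleGraph W) (lab : W → Vx) : Prop where
  inj : Function.Injective lab
  ok : ∀ w, Ok M (lab w)
  surj : ∀ v, Ok M v → ∃ w, lab w = v
  adj : ∀ u v, G.Adj u v ↔ RAdj C (lab u) (lab v)

theorem RAdj.symm {C : ℕ → ℕ → Bool → Prop} : ∀ {u v : Vx}, RAdj C u v → RAdj C v u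
  | a _ _, a _ _, h => Ne.symm h
  | a _ _, y _, h => h
  | y _, a _ _, h => h
  | a _ _, p _ _ _, h => h
  | p _ _ _, a _ _, h => h
  | p _ _ _, q _ _ _, h => ⟨h.1.symm, h.2.1.symm, h.2.2.symm⟩
  | q _ _ _, p _ _ _, h => ⟨h.1.symm, h.2.1.symm, h.2.2.symm⟩
  | q _ _ _, y _, h => h
  | y _, q _ _ _, h => h
  | a _ _, q _ _ _, h => h.elim
  | q _ _ _, a _ _, h => h.elim
  | y _, y _, h => h.elim
  | y _, p _ _ _, h => h.elim
  | p _ _ _, y _, h => h.elim
  | p _ _ _, p _ _ _, h => h.elim
  | q _ _ _, q _ _ _, h => h.elim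

section yes

variable {M : ℕ} {C : ℕ → ℕ → Bool → Prop} {G : SimpleGraph W} {lab : W → Vx}

/-- A satisfying assignment gives an induced subgraph with no colouring. -/
theorem not_colorable_of_sat (hG : IsModel M C G lab) (hM : 1 ≤ M) (f : ℕ → Bool)
    (hf : ∀ t < M, ∃ s ≤ M, C t s (f s)) :
    ∃ S : Set W, ¬ ∃ c : W → Bool, ∀ K, MaxIn G S K → K.Nontrivial →
      ∃ u ∈ K, ∃ v ∈ K, c u ≠ c v := by
  classical
  have hok : ∀ v, Ok M v → ∃ w, lab w = v := hG.surj
  refine ⟨{w | match lab w with
    | a s b => b = f s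
    | y _ => True
    | p t e b => b = f (pos t e)
    | q t e b => b = f (pos t e)}, ?_⟩
  set S : Set W := {w | match lab w with
    | a s b => b = f s
    | y _ => True
    | p t e b => b = f (pos t e)
    | q t e b => b = f (pos t e)} with hS
  rintro ⟨c, hc⟩
  have memS : ∀ w, w ∈ S ↔ (match lab w with
    | a s b => b = f s
    | y _ => True
    | p t e b => b = f (pos t e)
    | q t e b => b = f (pos t e)) := fun w => Iff.rfl
  -- edges along the paths are bichromatic
  have hap : ∀ t < M, ∀ e : Bool, ∀ u v, lab u = a (pos t e) (f (pos t e)) →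
      lab v = p t e (f (pos t e)) → c u ≠ c v := by
    intro t ht e u v hu hv
    have huS : u ∈ S := by rw [memS, hu]
    have hvS : v ∈ S := by rw [memS, hv]
    have huv : u ≠ v := by rintro rfl; rw [hu] at hv; cases hv
    have hadj : G.Adj u v := by rw [hG.adj, hu, hv]; exact ⟨rfl, rfl⟩
    have hmax : MaxIn G S {u, v} := by
      refine ⟨?_, ?_, ?_⟩
      · intro x hx
        rcases hx with rfl | rfl
        · exact huS
        · exact hvS
      · rw [SimpleGraph.isClique_pair]; exact fun _ => hadj
      · intro x hx hx2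
        by_contra hne
        simp only [Set.mem_insert_iff, Set.mem_singleton_iff, not_or] at hne
        have h1 := hx2 u (Set.mem_insert _ _) (Ne.symm hne.1)
        have h2 := hx2 v (Set.mem_insert_of_mem _ rfl) (Ne.symm hne.2)
        rw [hG.adj, hu] at h1
        rw [hG.adj, hv] at h2
        cases hl : lab x with
        | a s b =>
          rw [hl] at h1 h2
          exact h1 h2.1.symm
        | y s => rw [hl] at h2; exact h2
        | p s e' b => rw [hl] at h2; exact h2
        | q s e' b => rw [hl] at h1; exact h1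
    obtain ⟨x, hx, z, hz, hxz⟩ := hc _ hmax ⟨u, Set.mem_insert _ _, v,
      Set.mem_insert_of_mem _ rfl, huv⟩
    rcases hx with rfl | rfl <;> rcases hz with rfl | rfl
    · exact absurd rfl hxz
    · exact hxz
    · exact hxz.symm
    · exact absurd rfl hxz
  have hpq : ∀ t < M, ∀ e : Bool, ∀ u v, lab u = p t e (f (pos t e)) →
      lab v = q t e (f (pos t e)) → c u ≠ c v := by
    intro t ht e u v hu hv
    have huS : u ∈ S := by rw [memS, hu]
    have hvS : v ∈ S := by rw [memS, hv]
    have huv : u ≠ v := by rintro rfl; rw [hu] at hv; cases hv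
    have hadj : G.Adj u v := by rw [hG.adj, hu, hv]; exact ⟨rfl, rfl, rfl⟩
    have hmax : MaxIn G S {u, v} := by
      refine ⟨?_, ?_, ?_⟩
      · intro x hx
        rcases hx with rfl | rfl
        · exact huS
        · exact hvS
      · rw [SimpleGraph.isClique_pair]; exact fun _ => hadj
      · intro x hx hx2
        by_contra hne
        simp only [Set.mem_insert_iff, Set.mem_singleton_iff, not_or] at hne
        have h1 := hx2 u (Set.mem_insert _ _) (Ne.symm hne.1)
        have h2 := hx2 v (Set.mem_insert_of_mem _ rfl) (Ne.symm hne.2)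
        rw [hG.adj, hu] at h1
        rw [hG.adj, hv] at h2
        cases hl : lab x with
        | a s b => rw [hl] at h2; exact h2
        | y s => rw [hl] at h1; exact h1
        | p s e' b => rw [hl] at h1; exact h1
        | q s e' b => rw [hl] at h2; exact h2
    obtain ⟨x, hx, z, hz, hxz⟩ := hc _ hmax ⟨u, Set.mem_insert _ _, v,
      Set.mem_insert_of_mem _ rfl, huv⟩
    rcases hx with rfl | rfl <;> rcases hz with rfl | rfl
    · exact absurd rfl hxz
    · exact hxz
    · exact hxz.symm
    · exact absurd rfl hxz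
  have hqy : ∀ t < M, ∀ e : Bool, ∀ u v, lab u = q t e (f (pos t e)) →
      lab v = y t → c u ≠ c v := by
    intro t ht e u v hu hv
    have huS : u ∈ S := by rw [memS, hu]
    have hvS : v ∈ S := by rw [memS, hv]; trivial
    have huv : u ≠ v := by rintro rfl; rw [hu] at hv; cases hv
    have hadj : G.Adj u v := by rw [hG.adj, hu, hv]; exact rfl
    have hmax : MaxIn G S {u, v} := by
      refine ⟨?_, ?_, ?_⟩
      · intro x hx
        rcases hx with rfl | rfl
        · exact huS
        · exact hvS
      · rw [SimpleGraph.isClique_pair]; exact fun _ => hadj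
      · intro x hx hx2
        by_contra hne
        simp only [Set.mem_insert_iff, Set.mem_singleton_iff, not_or] at hne
        have h1 := hx2 u (Set.mem_insert _ _) (Ne.symm hne.1)
        have h2 := hx2 v (Set.mem_insert_of_mem _ rfl) (Ne.symm hne.2)
        rw [hG.adj, hu] at h1
        rw [hG.adj, hv] at h2
        cases hl : lab x with
        | a s b => rw [hl] at h1; exact h1
        | y s => rw [hl] at h2; exact h2
        | p s e' b => rw [hl] at h2; exact h2
        | q s e' b => rw [hl] at h1; exact h1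
    obtain ⟨x, hx, z, hz, hxz⟩ := hc _ hmax ⟨u, Set.mem_insert _ _, v,
      Set.mem_insert_of_mem _ rfl, huv⟩
    rcases hx with rfl | rfl <;> rcases hz with rfl | rfl
    · exact absurd rfl hxz
    · exact hxz
    · exact hxz.symm
    · exact absurd rfl hxz
  have hay : ∀ t < M, ∀ e : Bool, ∀ u v, lab u = a (pos t e) (f (pos t e)) → lab v = y t →
      c u ≠ c v := by
    intro t ht e u v hu hv
    obtain ⟨w1, hw1⟩ := hok (p t e (f (pos t e))) ht
    obtain ⟨w2, hw2⟩ := hok (q t e (f (pos t e))) ht
    have h1 := hap t ht e u w1 hu hw1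
    have h2 := hpq t ht e w1 w2 hw1 hw2
    have h3 := hqy t ht e w2 v hw2 hv
    revert h1 h2 h3
    cases c u <;> cases c w1 <;> cases c w2 <;> cases c v <;> simp
  have hstep : ∀ t < M, ∀ u v, lab u = a t (f t) → lab v = a (t + 1) (f (t + 1)) →
      c u = c v := by
    intro t ht u v hu hv
    obtain ⟨w, hw⟩ := hok (y t) ht
    have h1 := hay t ht false u w (by simpa [pos] using hu) hw
    have h2 := hay t ht true v w (by simpa [pos] using hv) hw
    revert h1 h2
    cases c u <;> cases c v <;> cases c w <;> simp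
  obtain ⟨w0, hw0⟩ := hok (a 0 (f 0)) (Nat.zero_le _)
  have hconst : ∀ s ≤ M, ∀ u, lab u = a s (f s) → c u = c w0 := by
    intro s
    induction s with
    | zero =>
      intro _ u hu
      rw [hG.inj (hu.trans hw0.symm)]
    | succ s ih =>
      intro hs u hu
      obtain ⟨w, hw⟩ := hok (a s (f s)) (show s ≤ M by omega)
      rw [← hstep s (by omega) w u hw hu]
      exact ih (by omega) w hw
  have hKmax : MaxIn G S {w | ∃ s ≤ M, lab w = a s (f s)} := by
    refine ⟨?_, ?_, ?_⟩
    · rintro w ⟨s, hs, hw⟩
      rw [memS, hw]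
    · rintro u ⟨s, hs, hu⟩ v ⟨s', hs', hv⟩ huv
      rw [hG.adj, hu, hv]
      intro h
      apply huv
      apply hG.inj
      subst h
      rw [hu, hv]
    · intro v hv hadj
      cases hl : lab v with
      | a s b =>
        rw [memS, hl] at hv
        have h1 := hG.ok v
        rw [hl] at h1
        exact ⟨s, h1, by rw [hl]; simp only [a.injEq, true_and]; exact hv⟩
      | y t =>
        have h1 := hG.ok v
        rw [hl] at h1
        obtain ⟨s, hs, hC⟩ := hf t h1
        obtain ⟨u, hu⟩ := hok (a s (f s)) hs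
        have h2 := hadj u ⟨s, hs, hu⟩ (by rintro rfl; rw [hl] at hu; cases hu)
        rw [hG.adj, hu, hl] at h2
        exact absurd hC h2
      | p t e b =>
        have h1 := hG.ok v
        rw [hl] at h1
        have h1' : t < M := h1
        -- an element at a position different from `pos t e`
        obtain ⟨s, hs, hne⟩ : ∃ s ≤ M, s ≠ pos t e := by
          by_cases h0 : pos t e = 0
          · exact ⟨1, hM, by omega⟩
          · exact ⟨0, Nat.zero_le _, fun h => h0 h.symm⟩
        obtain ⟨u, hu⟩ := hok (a s (f s)) hs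
        have h2 := hadj u ⟨s, hs, hu⟩ (by rintro rfl; rw [hl] at hu; cases hu)
        rw [hG.adj, hu, hl] at h2
        exact absurd h2.1 hne
      | q t e b =>
        have h2 := hadj w0 ⟨0, Nat.zero_le _, hw0⟩ (by rintro rfl; rw [hl] at hw0; cases hw0)
        rw [hG.adj, hw0, hl] at h2
        exact h2.elim
  obtain ⟨w1, hw1⟩ := hok (a 1 (f 1)) hM
  obtain ⟨u, ⟨s, hs, hu⟩, v, ⟨s', hs', hv⟩, huv⟩ := hc _ hKmax
    ⟨w0, ⟨0, Nat.zero_le _, hw0⟩, w1, ⟨1, hM, hw1⟩, by
      rintro h; rw [h] at hw0; rw [hw0] at hw1; cases hw1⟩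
  exact huv ((hconst s hs u hu).trans (hconst s' hs' v hv).symm)

end yes

end Pool.Agent.helper960_sd
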