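import Pool.Agent.helper960_sd.Links

/-!
# The adjacency matrix of the constructed graph, in polynomial time
-/

namespace Pool.Agent.helper960_sd

open Pool.Agent.NPC Vx

/-- Codes of vertices. -/
abbrev Code : Type := ℕ × ℕ × Bool × Bool

/-- Links. -/
abbrev LinkL : Type := List (List (ℕ × Bool))

/-- The code of a vertex. -/
def enc : Vx → Code
  | a t b => (0, t, false, b)
  | y t => (1, t, false, false)
  | p t e b => (2, t, e, b)
  | q t e b => (3, t, e, b)

/-- The vertex with a given code. -/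
def dec : Code → Vx
  | (0, t, _, b) => a t b
  | (1, t, _, _) => y t
  | (2, t, e, b) => p t e b
  | (_, t, e, b) => q t e b

theorem dec_enc (v : Vx) : dec (enc v) = v := by
  cases v <;> rfl

/-- The codes at a position. -/
def vertsA (t : ℕ) : List Code := [(0, t, false, false), (0, t, false, true)]

/-- The codes at a link. -/
def vertsL (t : ℕ) : List Code :=
  [(1, t, false, false),
   (2, t, false, false), (2, t, false, true), (2, t, true, false), (2, t, true, true),
   (3, t, false, false), (3, t, false, true), (3, t, true, false), (3, t, true, true)]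

/-- All codes of vertices. -/
def verts (L : LinkL) : List Code :=
  (List.range ([] :: L).length).flatMap vertsA ++ (List.range L.length).flatMap vertsL

theorem mem_verts (L : LinkL) (u : Code) : u ∈ verts L ↔ ∃ v, Ok L.length v ∧ u = enc v := by
  unfold verts
  rw [List.mem_append, List.mem_flatMap, List.mem_flatMap]
  constructor
  · rintro (⟨t, ht, hu⟩ | ⟨t, ht, hu⟩)
    · rw [List.mem_range, List.length_cons] at ht
      have ht' : t ≤ L.length := by omega
      simp only [vertsA, List.mem_cons, List.not_mem_nil, or_false] at hu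
      rcases hu with rfl | rfl
      · exact ⟨a t false, ht', rfl⟩
      · exact ⟨a t true, ht', rfl⟩
    · rw [List.mem_range] at ht
      simp only [vertsL, List.mem_cons, List.not_mem_nil, or_false] at hu
      rcases hu with rfl | rfl | rfl | rfl | rfl | rfl | rfl | rfl | rfl
      · exact ⟨y t, ht, rfl⟩
      · exact ⟨p t false false, ht, rfl⟩
      · exact ⟨p t false true, ht, rfl⟩
      · exact ⟨p t true false, ht, rfl⟩
      · exact ⟨p t true true, ht, rfl⟩
      · exact ⟨q t false false, ht, rfl⟩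
      · exact ⟨q t false true, ht, rfl⟩
      · exact ⟨q t true false, ht, rfl⟩
      · exact ⟨q t true true, ht, rfl⟩
  · rintro ⟨v, hv, rfl⟩
    cases v with
    | a t b =>
      left
      have hv' : t ≤ L.length := hv
      refine ⟨t, by rw [List.mem_range, List.length_cons]; omega, ?_⟩
      cases b <;> simp [enc, vertsA]
    | y t =>
      right
      exact ⟨t, List.mem_range.2 hv, by simp [enc, vertsL]⟩
    | p t e b =>
      right
      refine ⟨t, List.mem_range.2 hv, ?_⟩
      cases e <;> cases b <;> simp [enc, vertsL]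
    | q t e b =>
      right
      refine ⟨t, List.mem_range.2 hv, ?_⟩
      cases e <;> cases b <;> simp [enc, vertsL]

theorem verts_nodup (L : LinkL) : (verts L).Nodup := by
  unfold verts
  rw [List.nodup_append]
  refine ⟨?_, ?_, ?_⟩
  · rw [List.nodup_flatMap]
    refine ⟨fun t _ => by simp [vertsA], ?_⟩
    refine List.Pairwise.imp ?_ (List.nodup_range (n := ([] :: L).length))
    intro i j hij
    rw [Function.onFun, List.disjoint_left]
    intro u hu hu'
    simp only [vertsA, List.mem_cons, List.not_mem_nil, or_false] at hu hu'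
    rcases hu with rfl | rfl <;> simp [hij] at hu'
  · rw [List.nodup_flatMap]
    refine ⟨fun t _ => by simp [vertsL], ?_⟩
    refine List.Pairwise.imp ?_ (List.nodup_range (n := L.length))
    intro i j hij
    rw [Function.onFun, List.disjoint_left]
    intro u hu hu'
    simp only [vertsL, List.mem_cons, List.not_mem_nil, or_false] at hu hu'
    rcases hu with rfl | rfl | rfl | rfl | rfl | rfl | rfl | rfl | rfl <;> simp [hij] at hu'
  · intro u hu v hv huv
    subst huv
    rw [List.mem_flatMap] at hu hv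
    obtain ⟨t, -, ht⟩ := hu
    obtain ⟨s, -, hs⟩ := hv
    simp only [vertsA, List.mem_cons, List.not_mem_nil, or_false] at ht
    simp only [vertsL, List.mem_cons, List.not_mem_nil, or_false] at hs
    rcases ht with rfl | rfl <;> simp at hs

/-- Half of the adjacency relation, on codes. -/
def ed (L : LinkL) (u v : Code) : Bool :=
  (decide (u.1 = 0) && decide (v.1 = 0) && !(decide (u.2.1 = v.2.1))) ||
  (decide (u.1 = 0) && decide (v.1 = 1) &&
    !(decide ((u.2.1, u.2.2.2) ∈ L.getD v.2.1 []))) ||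
  (decide (u.1 = 0) && decide (v.1 = 2) &&
    (decide (u.2.1 = v.2.1 + (bif v.2.2.1 then 1 else 0)) &&
      decide (u.2.2.2 = v.2.2.2))) ||
  (decide (u.1 = 2) && decide (v.1 = 3) && decide (u.2 = v.2)) ||
  (decide (u.1 = 3) && decide (v.1 = 1) && decide (u.2.1 = v.2.1))

/-- Adjacency, on codes. -/
def adjB (L : LinkL) (u v : Code) : Bool := ed L u v || ed L v u

theorem adjB_comm (L : LinkL) (u v : Code) : adjB L u v = adjB L v u := by
  unfold adjB
  rw [Bool.or_comm]

theorem adjB_enc (L : LinkL) (u v : Vx) : adjB L (enc u) (enc v) = true ↔ RAdj (relC L) u v := by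
  cases u with
  | a t b =>
    cases v with
    | a t' b' =>
      by_cases h : t = t'
      · subst h
        simp [adjB, ed, enc, RAdj]
      · simp [adjB, ed, enc, RAdj, h]
    | y t' => simp [adjB, ed, enc, RAdj, relC]
    | p t' e' b' => cases e' <;> simp [adjB, ed, enc, RAdj, pos]
    | q t' e' b' => simp [adjB, ed, enc, RAdj]
  | y t =>
    cases v with
    | a t' b' => simp [adjB, ed, enc, RAdj, relC]
    | y t' => simp [adjB, ed, enc, RAdj]
    | p t' e' b' => simp [adjB, ed, enc, RAdj]
    | q t' e' b' =>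
      simp [adjB, ed, enc, RAdj]
  | p t e b =>
    cases v with
    | a t' b' => cases e <;> simp [adjB, ed, enc, RAdj, pos]
    | y t' => simp [adjB, ed, enc, RAdj]
    | p t' e' b' => simp [adjB, ed, enc, RAdj]
    | q t' e' b' => simp [adjB, ed, enc, RAdj]
  | q t e b =>
    cases v with
    | a t' b' => simp [adjB, ed, enc, RAdj]
    | y t' => simp [adjB, ed, enc, RAdj]
    | p t' e' b' =>
      simp [adjB, ed, enc, RAdj]
      constructor
      · rintro ⟨rfl, rfl, rfl⟩
        exact ⟨rfl, rfl, rfl⟩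
      · rintro ⟨rfl, rfl, rfl⟩
        exact ⟨rfl, rfl, rfl⟩
    | q t' e' b' => simp [adjB, ed, enc, RAdj]

theorem radj_irrefl (C : ℕ → ℕ → Bool → Prop) (v : Vx) : ¬ RAdj C v v := by
  cases v <;> simp [RAdj]

/-- The adjacency matrix. -/
def mat (L : LinkL) : List (List Bool) := (verts L).map (fun u => (verts L).map (fun v => adjB L u v))

theorem mat_length (L : LinkL) : (mat L).length = (verts L).length := by
  simp [mat]

theorem entry_mat (L : LinkL) {i j : ℕ} (hi : i < (verts L).length) (hj : j < (verts L).length) :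
    entry (mat L) i j = adjB L (verts L)[i] (verts L)[j] := by
  unfold entry mat
  rw [List.getD_eq_getElem?_getD, List.getD_eq_getElem?_getD, List.getElem?_map,
    List.getElem?_eq_getElem hi, Option.map_some, Option.getD_some, List.getElem?_map,
    List.getElem?_eq_getElem hj, Option.map_some, Option.getD_some]

theorem entry_mat_left (L : LinkL) {i j : ℕ} (hi : ¬ i < (verts L).length) :
    entry (mat L) i j = false := by
  unfold entry mat
  rw [List.getD_eq_getElem?_getD, List.getD_eq_getElem?_getD, List.getElem?_map,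
    List.getElem?_eq_none (by omega : (verts L).length ≤ i)]
  simp

theorem entry_mat_right (L : LinkL) {i j : ℕ} (hj : ¬ j < (verts L).length) :
    entry (mat L) i j = false := by
  by_cases hi : i < (verts L).length
  · unfold entry mat
    rw [List.getD_eq_getElem?_getD, List.getD_eq_getElem?_getD, List.getElem?_map,
      List.getElem?_eq_getElem hi, Option.map_some, Option.getD_some, List.getElem?_map,
      List.getElem?_eq_none (by omega : (verts L).length ≤ j)]
    rfl
  · exact entry_mat_left L hi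

theorem exists_enc (L : LinkL) {i : ℕ} (hi : i < (verts L).length) :
    ∃ v, Ok L.length v ∧ (verts L)[i] = enc v :=
  (mem_verts L _).1 (List.getElem_mem hi)

theorem isAdjMatrix_mat (L : LinkL) : IsAdjMatrix (mat L) := by
  refine ⟨?_, ?_, ?_⟩
  · intro r hr
    rw [mat_length]
    unfold mat at hr
    rw [List.mem_map] at hr
    obtain ⟨u, -, rfl⟩ := hr
    simp
  · intro i j
    by_cases hi : i < (verts L).length
    · by_cases hj : j < (verts L).length
      · rw [entry_mat L hi hj, entry_mat L hj hi, adjB_comm]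
      · rw [entry_mat_right L hj, entry_mat_left L hj]
    · rw [entry_mat_left L hi, entry_mat_right L hi]
  · intro i
    by_cases hi : i < (verts L).length
    · rw [entry_mat L hi hi]
      obtain ⟨v, -, hv⟩ := exists_enc L hi
      rw [hv]
      by_contra h
      exact radj_irrefl _ v ((adjB_enc L v v).1 (by simpa using h))
    · exact entry_mat_left L hi

/-- The labelling of the vertices of the graph with matrix `mat L`. -/
def labL (L : LinkL) (i : Fin (mat L).length) : Vx :=
  dec ((verts L)[i.1]'(by rw [← mat_length]; exact i.2))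

theorem isModel_mat (L : LinkL) : IsModel L.length (relC L) (graphOf (mat L)) (labL L) := by
  have hlt : ∀ i : Fin (mat L).length, i.1 < (verts L).length := fun i => by
    rw [← mat_length]; exact i.2
  have hlab : ∀ i : Fin (mat L).length, enc (labL L i) = (verts L)[i.1]'(hlt i) := by
    intro i
    obtain ⟨v, -, hv⟩ := exists_enc L (hlt i)
    unfold labL
    rw [hv, dec_enc]
  refine ⟨?_, ?_, ?_, ?_⟩
  · intro i j hij
    have h1 : (verts L)[i.1]'(hlt i) = (verts L)[j.1]'(hlt j) := by
      rw [← hlab i, ← hlab j, hij]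
    have h2 := (List.Nodup.getElem_inj_iff (verts_nodup L)).1 h1
    exact Fin.ext h2
  · intro i
    obtain ⟨v, hv, hv'⟩ := exists_enc L (hlt i)
    unfold labL
    rw [hv', dec_enc]
    exact hv
  · intro v hv
    have hmem : enc v ∈ verts L := (mem_verts L _).2 ⟨v, hv, rfl⟩
    obtain ⟨i, hi, hiv⟩ := List.mem_iff_getElem.1 hmem
    refine ⟨⟨i, by rw [mat_length]; exact hi⟩, ?_⟩
    unfold labL
    simp only [hiv, dec_enc]
  · intro i j
    unfold graphOf
    rw [SimpleGraph.fromRel_adj, ← adjB_enc, hlab i, hlab j, entry_mat L (hlt i) (hlt j),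
      entry_mat L (hlt j) (hlt i), adjB_comm L ((verts L)[j.1]'(hlt j)), or_self]
    constructor
    · exact fun h => h.2
    · intro h
      refine ⟨?_, h⟩
      rintro rfl
      rw [← hlab i, adjB_enc] at h
      exact radj_irrefl _ _ h

theorem verts_poly : NPC.Poly verts := by
  have hA : NPC.Poly vertsA := by
    unfold vertsA
    refine NPC.Poly.cons ?_ (NPC.Poly.cons ?_ (NPC.Poly.const _)) <;>
      exact NPC.Poly.pair (NPC.Poly.const _) (NPC.Poly.pair NPC.Poly.id (NPC.Poly.const _))
  have hL : NPC.Poly vertsL := by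
    unfold vertsL
    refine NPC.Poly.cons ?_ (NPC.Poly.cons ?_ (NPC.Poly.cons ?_ (NPC.Poly.cons ?_ (NPC.Poly.cons ?_ (NPC.Poly.cons ?_
      (NPC.Poly.cons ?_ (NPC.Poly.cons ?_ (NPC.Poly.cons ?_ (NPC.Poly.const _))))))))) <;>
      exact NPC.Poly.pair (NPC.Poly.const _) (NPC.Poly.pair NPC.Poly.id (NPC.Poly.const _))
  unfold verts
  refine NPC.Poly.append ?_ ?_
  · exact NPC.Poly.flatMap (F := fun (_ : LinkL) (t : ℕ) => vertsA t)
      (NPC.Poly.range_length (NPC.Poly.cons (NPC.Poly.const _) NPC.Poly.id)) (NPC.Poly.comp hA (NPC.Poly.snd NPC.Poly.id))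
  · exact NPC.Poly.flatMap (F := fun (_ : LinkL) (t : ℕ) => vertsL t)
      (NPC.Poly.range_length NPC.Poly.id) (NPC.Poly.comp hL (NPC.Poly.snd NPC.Poly.id))

theorem ed_poly : NPC.Poly (fun x : LinkL × Code × Code => ed x.1 x.2.1 x.2.2) := by
  have u1 : NPC.Poly (fun x : LinkL × Code × Code => x.2.1.1) := NPC.Poly.fst (NPC.Poly.fst (NPC.Poly.snd NPC.Poly.id))
  have u2 : NPC.Poly (fun x : LinkL × Code × Code => x.2.1.2) := NPC.Poly.snd (NPC.Poly.fst (NPC.Poly.snd NPC.Poly.id))
  have v1 : NPC.Poly (fun x : LinkL × Code × Code => x.2.2.1) := NPC.Poly.fst (NPC.Poly.snd (NPC.Poly.snd NPC.Poly.id))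
  have v2 : NPC.Poly (fun x : LinkL × Code × Code => x.2.2.2) := NPC.Poly.snd (NPC.Poly.snd (NPC.Poly.snd NPC.Poly.id))
  have ht : NPC.Poly (fun x : LinkL × Code × Code => x.2.1.2.1) := NPC.Poly.fst u2
  have hb : NPC.Poly (fun x : LinkL × Code × Code => x.2.1.2.2.2) := NPC.Poly.snd (NPC.Poly.snd u2)
  have vt : NPC.Poly (fun x : LinkL × Code × Code => x.2.2.2.1) := NPC.Poly.fst v2
  have ve : NPC.Poly (fun x : LinkL × Code × Code => x.2.2.2.2.1) := NPC.Poly.fst (NPC.Poly.snd v2)
  have vb : NPC.Poly (fun x : LinkL × Code × Code => x.2.2.2.2.2) := NPC.Poly.snd (NPC.Poly.snd v2)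
  have hL : NPC.Poly (fun x : LinkL × Code × Code => x.1) := NPC.Poly.fst NPC.Poly.id
  unfold ed
  refine NPC.Poly.or (NPC.Poly.or (NPC.Poly.or (NPC.Poly.or ?_ ?_) ?_) ?_) ?_
  · exact NPC.Poly.and (NPC.Poly.and (NPC.Poly.decide_eq u1 (NPC.Poly.const _)) (NPC.Poly.decide_eq v1 (NPC.Poly.const _)))
      (NPC.Poly.not (NPC.Poly.decide_eq ht vt))
  · exact NPC.Poly.and (NPC.Poly.and (NPC.Poly.decide_eq u1 (NPC.Poly.const _)) (NPC.Poly.decide_eq v1 (NPC.Poly.const _)))
      (NPC.Poly.not (NPC.Poly.congr (NPC.Poly.decide_mem (NPC.Poly.pair ht hb)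
        (NPC.Poly.getD hL vt (NPC.Poly.const _))) (fun x => decide_eq_decide.2 Iff.rfl)))
  · exact NPC.Poly.and (NPC.Poly.and (NPC.Poly.decide_eq u1 (NPC.Poly.const _)) (NPC.Poly.decide_eq v1 (NPC.Poly.const _)))
      (NPC.Poly.and (NPC.Poly.decide_eq ht (NPC.Poly.add vt (NPC.Poly.cond ve (NPC.Poly.const _) (NPC.Poly.const _))))
        (NPC.Poly.decide_eq hb vb))
  · exact NPC.Poly.and (NPC.Poly.and (NPC.Poly.decide_eq u1 (NPC.Poly.const _)) (NPC.Poly.decide_eq v1 (NPC.Poly.const _)))
      (NPC.Poly.decide_eq u2 v2)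
  · exact NPC.Poly.and (NPC.Poly.and (NPC.Poly.decide_eq u1 (NPC.Poly.const _)) (NPC.Poly.decide_eq v1 (NPC.Poly.const _)))
      (NPC.Poly.decide_eq ht vt)

theorem adjB_poly : NPC.Poly (fun x : LinkL × Code × Code => adjB x.1 x.2.1 x.2.2) := by
  unfold adjB
  refine NPC.Poly.or ed_poly ?_
  exact NPC.Poly.comp ed_poly (f := fun x : LinkL × Code × Code => (x.1, x.2.2, x.2.1))
    (NPC.Poly.pair (NPC.Poly.fst NPC.Poly.id) (NPC.Poly.pair (NPC.Poly.snd (NPC.Poly.snd NPC.Poly.id))
      (NPC.Poly.fst (NPC.Poly.snd NPC.Poly.id))))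

theorem mat_poly : NPC.Poly mat := by
  unfold mat
  refine NPC.Poly.map (F := fun (L : LinkL) (u : Code) => (verts L).map (fun v => adjB L u v))
    verts_poly ?_
  refine NPC.Poly.map (F := fun (x : LinkL × Code) (v : Code) => adjB x.1 x.2 v)
    (NPC.Poly.comp verts_poly (NPC.Poly.fst NPC.Poly.id)) ?_
  exact NPC.Poly.comp adjB_poly (f := fun x : (LinkL × Code) × Code => (x.1.1, x.1.2, x.2))
    (NPC.Poly.pair (NPC.Poly.fst (NPC.Poly.fst NPC.Poly.id)) (NPC.Poly.pair (NPC.Poly.snd (NPC.Poly.fst NPC.Poly.id))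
      (NPC.Poly.snd NPC.Poly.id)))

theorem links_poly : NPC.Poly links := by
  have hlen : NPC.Poly (fun φ : List Cl => φ.length) := NPC.Poly.length NPC.Poly.id
  have hbig : NPC.Poly big := by
    unfold big
    exact NPC.Poly.add (NPC.Poly.mul (NPC.Poly.const _) hlen) (NPC.Poly.const _)
  have hoff : NPC.Poly (fun φ : List Cl => 2 * φ.length + 2) :=
    NPC.Poly.add (NPC.Poly.mul (NPC.Poly.const _) hlen) (NPC.Poly.const _)
  have hg : NPC.Poly (fun φ : List Cl => guardC (big φ)) := by
    unfold guardC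
    exact NPC.Poly.cons (NPC.Poly.pair hbig (NPC.Poly.const _))
      (NPC.Poly.cons (NPC.Poly.pair hbig (NPC.Poly.const _)) (NPC.Poly.const _))
  have hlit : NPC.Poly (fun x : ℕ × Lit ℕ => litC x.1 x.2) := by
    unfold litC
    exact NPC.Poly.pair (NPC.Poly.add (NPC.Poly.fst NPC.Poly.id) (NPC.Poly.snd (NPC.Poly.snd NPC.Poly.id)))
      (NPC.Poly.fst (NPC.Poly.snd NPC.Poly.id))
  have hcl : NPC.Poly (fun x : ℕ × Cl => clauseC x.1 x.2) := by
    unfold clauseC
    refine NPC.Poly.cons ?_ (NPC.Poly.cons ?_ (NPC.Poly.cons ?_ (NPC.Poly.const _)))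
    · exact NPC.Poly.comp hlit (f := fun x : ℕ × Cl => (x.1, x.2.1))
        (NPC.Poly.pair (NPC.Poly.fst NPC.Poly.id) (NPC.Poly.fst (NPC.Poly.snd NPC.Poly.id)))
    · exact NPC.Poly.comp hlit (f := fun x : ℕ × Cl => (x.1, x.2.2.1))
        (NPC.Poly.pair (NPC.Poly.fst NPC.Poly.id) (NPC.Poly.fst (NPC.Poly.snd (NPC.Poly.snd NPC.Poly.id))))
    · exact NPC.Poly.comp hlit (f := fun x : ℕ × Cl => (x.1, x.2.2.2))
        (NPC.Poly.pair (NPC.Poly.fst NPC.Poly.id) (NPC.Poly.snd (NPC.Poly.snd (NPC.Poly.snd NPC.Poly.id))))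
  unfold links
  refine NPC.Poly.append ?_ (NPC.Poly.append ?_ ?_)
  · refine NPC.Poly.flatMap (F := fun (φ : List Cl) (c : Cl) =>
      [guardC (big φ), clauseC (2 * φ.length + 2) c]) NPC.Poly.id ?_
    refine NPC.Poly.cons (NPC.Poly.comp (g := fun φ : List Cl => guardC (big φ)) hg (NPC.Poly.fst NPC.Poly.id)) (NPC.Poly.cons ?_ (NPC.Poly.const _))
    exact NPC.Poly.comp hcl (f := fun x : List Cl × Cl => (2 * x.1.length + 2, x.2))
      (NPC.Poly.pair (NPC.Poly.comp (g := fun φ : List Cl => 2 * φ.length + 2) hoff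
        (NPC.Poly.fst NPC.Poly.id)) (NPC.Poly.snd NPC.Poly.id))
  · exact NPC.Poly.map (F := fun (φ : List Cl) (_ : Cl) => guardC (big φ))
      (NPC.Poly.append NPC.Poly.id (NPC.Poly.append NPC.Poly.id NPC.Poly.id)) (NPC.Poly.comp (g := fun φ : List Cl => guardC (big φ)) hg (NPC.Poly.fst NPC.Poly.id))
  · exact NPC.Poly.cons hg (NPC.Poly.const _)

/-- The reduction is correct. -/
theorem strong_iff (φ : List Cl) (hφ : Bounded3 φ) :
    Strong2Div (mat (links φ)) ↔ ¬ SAT3 φ := by
  have hm := isModel_mat (links φ)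
  rw [links_length] at hm
  rw [relC_sat φ hφ, ← strongly_iff hm (by unfold big; omega) (relC_h1 φ) (relC_h2 φ)]
  exact ⟨fun h => h.2, fun h => ⟨isAdjMatrix_mat _, h⟩⟩

/-- Recognising strongly `2`-divisible graphs is `coNP`-hard, even on adjacency matrices. -/
theorem coNPHard_strong2Div : CoNPHardP Strong2Div := by
  have h1 : HardPr (fun A : List (List Bool) => IsAdjMatrix A) (fun A => ¬ Strong2Div A) := by
    refine HardPr.trans hardPr_SAT3b (f := fun φ => mat (links φ)) ?_ ?_ ?_
    · exact NPC.Poly.comp mat_poly links_poly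
    · exact fun φ _ => isAdjMatrix_mat _
    · intro φ hφ
      rw [strong_iff φ hφ.2.1, not_not]
  exact h1.toCoNPHardP

end Pool.Agent.helper960_sd
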